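import Pool.Agent.Helper15.RA.GoalsH

/-! Packet RA-EC: multiplicativity of functions defined by recursion on syllables. -/

set_option autoImplicit false

open LaurentPolynomial

namespace Pool.Agent.Helper28.RA

open Pool.Agent.Helper15.RA

theorem h_ec : E_C := by
  intro V W _ Γ G sl hG N _ f C hC1 hC
  refine ⟨fun v g hg hg1 => ?_, ?_⟩
  · have h := hC v g hg hg1 1 (by rw [mul_one, hG.syl v g hg hg1, hG.one])
    rwa [mul_one, hC1, mul_one] at h
  · intro x
    induction hn : sl x using Nat.strong_induction_on generalizing x with
    | _ n ih =>
      intro y hxy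
      by_cases hx : x = 1
      · subst hx
        rw [one_mul, hC1, one_mul]
      · obtain ⟨v, g, hg, hg1, hs⟩ := hG.gen x hx
        set x' := g⁻¹ * x with hx'
        have hxx : x = g * x' := by rw [hx', mul_inv_cancel_left]
        have h1 : C x = f g * C x' := by
          conv_lhs => rw [hxx]
          exact hC v g hg hg1 x' (by rw [← hxx]; omega)
        have h2 := hG.mul x' y
        have h3 := hG.mul g (x' * y)
        rw [hG.syl v g hg hg1, ← mul_assoc, ← hxx] at h3
        have h4 : sl (x' * y) = sl x' + sl y := by omega
        have h5 : C (x * y) = f g * C (x' * y) := by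
          have h6 : x * y = g * (x' * y) := by rw [← mul_assoc, ← hxx]
          rw [h6]
          exact hC v g hg hg1 (x' * y) (by rw [← h6]; omega)
        rw [h5, ih (sl x') (by omega) x' rfl y h4, h1, mul_assoc]

end Pool.Agent.Helper28.RA
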