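import Pool.Agent.Helper15.RA.GoalsK

/-! Packet RA-F1: `c_w ∈ I_M` for `Ge (M+1) w`, and P1. -/

set_option autoImplicit false

open LaurentPolynomial

namespace Pool.Agent.Helper28.RA

open Pool.Agent.Helper15.RA

section

variable {I W V H : Type} [Group W] [Ring H] [Algebra ℤ[T;T⁻¹] H] (X : Ctx I W V H)

/-- `bar` fixes the monomial basis. -/
theorem bar_C (w : W) : X.D.bar (X.C w) = X.C w := by
  induction hn : X.sl w using Nat.strong_induction_on generalizing w with
  | _ n ih =>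
    by_cases hw : w = 1
    · rw [hw, X.C_one, map_one]
    · obtain ⟨v, g, hg, hg1, hs⟩ := X.gp.gen w hw
      have hww : w = g * (g⁻¹ * w) := by rw [mul_inv_cancel_left]
      have h1 : X.C w = X.D.c g * X.C (g⁻¹ * w) := by
        conv_lhs => rw [hww]
        exact X.C_mul v g hg hg1 _ (by rw [← hww]; omega)
      rw [h1, map_mul, X.D.bar_c, ih (X.sl (g⁻¹ * w)) (by omega) _ rfl]

theorem bar_idl (hsl : ∀ (p : ℤ[T;T⁻¹]) (Z : H), X.D.bar (p • Z) = invert p • X.D.bar Z) {M : ℕ}
    {Z : H} (hZ : Z ∈ X.Idl M) : X.D.bar Z ∈ X.Idl M := by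
  unfold Ctx.Idl at hZ ⊢
  induction hZ using Submodule.span_induction with
  | mem x hx =>
    obtain ⟨w, hw, rfl⟩ := hx
    rw [bar_C]
    exact Submodule.subset_span ⟨w, hw, rfl⟩
  | zero => rw [map_zero]; exact zero_mem _
  | add x y _ _ hx hy => rw [map_add]; exact add_mem hx hy
  | smul p x _ hx => rw [hsl]; exact Submodule.smul_mem _ _ hx

end

theorem h_f1 (h2 : H_2) (h3 : I_3) : F_1 := by
  intro I W V H _ _ _ X hSA M w hGe
  obtain ⟨hsl, -, -, hcw, -, hcy, -, -, -, -⟩ := h2 I W H X.M X.cs X.L X.wt X.D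
  classical
  set P := X.D.t.repr (X.D.c w) with hP
  set n : ℕ := P.support.sup X.sl with hn
  have hsum : X.D.c w = ∑ y ∈ P.support, P y • X.D.t y := by
    have h := X.D.t.linearCombination_repr (X.D.c w)
    rw [Finsupp.linearCombination_apply, Finsupp.sum, ← hP] at h
    exact h.symm
  have hL : X.LamT M n (-1) (X.D.c w) := by
    rw [hsum]
    refine Ctx.LamT.sum fun y hy => ?_
    have hyn : X.sl y ≤ n := Finset.le_sup (f := X.sl) hy
    by_cases hyw : y = w
    · subst hyw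
      have h1 := (hSA (X.sl y + 1) M y (Nat.lt_succ_self _)).2 hGe
      have h4 : DegLE 0 (P y) := by
        rw [hcw]
        exact DegLE.one le_rfl
      exact Ctx.LamT.smul_le h4 h1 hyn (by norm_num)
    · have h1 := (hSA (X.sl y + 1) M y (Nat.lt_succ_self _)).1
      exact Ctx.LamT.smul_le (hcy w y hyw) h1 hyn (by norm_num)
  obtain ⟨l, hl1, hl2, hl3⟩ := hL
  have hb : X.D.c w - X.D.bar l ∈ X.Idl M := by
    have h := bar_idl X hsl hl2
    rwa [map_sub, X.D.bar_c] at h
  have hlb : l - X.D.bar l ∈ X.Idl M := by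
    have h := sub_mem hb hl2
    rwa [sub_sub_sub_cancel_left] at h
  have hl0 : l = 0 := (h3 I W V H X M l fun y hy => ((hl1 y).2 hy).1).2 (fun y => (hl1 y).1) hlb
  rw [hl0, sub_zero] at hl2 hl3
  exact ⟨hl2, hl3.mono (by omega)⟩

end Pool.Agent.Helper28.RA
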